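import Pool.Agent.N463.PZ.Chain

set_option autoImplicit false

/-!
# One stage and the periodic chain for columns of `2p+1, -(2q+1), 2b+1` half twists, `0 ≤ p ≤ 1`

`X, V, W` are order automorphisms of a complete linear order with `X V W = 1`, `R` (the power
`V ^ (q-1)`) follows `V`, `F` (the power `W ^ b`) follows `W` and `G` (the power `X ^ p`) is
between the identity and `X`: both `G` and `G⁻¹ X` follow `X`.

Before the stage `A = X G V² R`, `C = W F G⁻¹`; after the stage `A' = A W = X G V R X⁻¹`,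
`C' = F G⁻¹ X⁻¹`.  For `G = X` this is the chain of helper463 (`Pool.Agent.N463.PZ.Chain`), which
is the model of this file.
-/

namespace Pool.Agent.U541.PB

open Pool.Agent.TH821.Hex

variable {Ω : Type*} [CompleteLinearOrder Ω]

/-- One stage. -/
structure BStage (X V W G F R : Ω ≃o Ω) : Prop where
  prod : ∀ v, X (V (W v)) = v
  xG : Follows X G
  xG' : Follows X (X.trans G.symm)
  vR : Follows V R
  wF : Follows W F

theorem BStage.dual {X V W G F R : Ω ≃o Ω} (h : BStage X V W G F R) :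
    BStage (Ω := Ωᵒᵈ) X.dual V.dual W.dual G.dual F.dual R.dual :=
  ⟨fun v => h.prod v, h.xG.dual, h.xG'.dual, h.vR.dual, h.wF.dual⟩

section stage
variable {X V W G F R : Ω ≃o Ω}

theorem BStage.vw (h : BStage X V W G F R) (y : Ω) : V (W y) = X.symm y := by
  rw [← X.injective.eq_iff, h.prod, X.apply_symm_apply]

theorem BStage.comm_symm (h : BStage X V W G F R) (y : Ω) :
    G.symm (X.symm y) = X.symm (G.symm y) := by
  rw [G.symm_apply_eq, X.symm_apply_eq.mpr]
  rw [h.xG.comm, X.apply_symm_apply, G.apply_symm_apply]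

/-- where `X` does not move down, `G y ≤ X y` -/
theorem BStage.G_le (h : BStage X V W G F R) {y : Ω} (hx : y ≤ X y) : G y ≤ X y := by
  have := h.xG'.up y hx
  rwa [OrderIso.trans_apply, le_symm_iff] at this

theorem BStage.le_G (h : BStage X V W G F R) {y : Ω} (hx : X y ≤ y) : X y ≤ G y := by
  have := h.xG'.down y hx
  rwa [OrderIso.trans_apply, symm_le_iff'] at this

theorem BStage.Gs_le (h : BStage X V W G F R) {y : Ω} (hx : y ≤ X y) : G.symm y ≤ y := by
  rw [symm_le_iff']; exact h.xG.up y hx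

theorem BStage.le_Gs (h : BStage X V W G F R) {y : Ω} (hx : X y ≤ y) : y ≤ G.symm y := by
  rw [le_symm_iff]; exact h.xG.down y hx

/-- `X⁻¹ y ≤ G⁻¹ y` where `X` does not move down -/
theorem BStage.Xs_le_Gs (h : BStage X V W G F R) {y : Ω} (hx : X.symm y ≤ y) :
    X.symm y ≤ G.symm y := by
  rw [le_symm_iff]
  have := h.G_le (y := X.symm y) (by rw [X.apply_symm_apply]; exact hx)
  rwa [X.apply_symm_apply] at this

theorem BStage.Gs_le_Xs (h : BStage X V W G F R) {y : Ω} (hx : y ≤ X.symm y) :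
    G.symm y ≤ X.symm y := by
  rw [symm_le_iff']
  have := h.le_G (y := X.symm y) (by rw [X.apply_symm_apply]; exact hx)
  rwa [X.apply_symm_apply] at this

/-- `y ≤ A y`, `y ≤ C y` and `y ≤ X y` only if everything is fixed. -/
theorem BStage.xdown (h : BStage X V W G F R) {y : Ω} (hA : y ≤ X (G (V (V (R y)))))
    (hC : y ≤ W (F (G.symm y))) (hx : y ≤ X y) : X y = y ∧ V y = y ∧ W y = y := by
  set z := G.symm y with hz
  have hzy : z ≤ y := h.Gs_le hx
  have hux : X.symm y ≤ y := by rw [symm_le_iff']; exact hx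
  -- `W z ≤ V (R y)`
  have h1 : X.symm z ≤ V (V (R y)) := by
    rw [hz, ← h.comm_symm, symm_le_iff', symm_le_iff']; exact hA
  have h2 : W z ≤ V (R y) := by
    rw [← V.le_iff_le, h.vw]; exact h1
  rcases le_or_gt (W y) y with h3 | h3
  · -- everything is fixed
    have h4 : F y ≤ y := h.wF.down y h3
    have h5 : W (F z) ≤ W (F y) := W.le_iff_le.mpr (F.le_iff_le.mpr hzy)
    have h6 : W (F y) ≤ W y := W.le_iff_le.mpr h4
    have e1 : W (F z) = W (F y) := le_antisymm h5 (h6.trans (h3.trans hC))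
    have e2 : z = y := F.injective (W.injective e1)
    have e3 : W y = y := le_antisymm h3 (hC.trans (h5.trans h6))
    have e4 : V y = X.symm y := by
      have := h.vw y
      rwa [e3] at this
    rw [e2, e3] at h2
    have h7 : V y ≤ y := e4.trans_le hux
    have h8 : V (R y) ≤ V y := V.le_iff_le.mpr (h.vR.down y h7)
    have e5 : V y = y := le_antisymm h7 (h2.trans h8)
    have e6 : X y = y := by
      rw [e5] at e4
      have := congrArg X e4
      rwa [X.apply_symm_apply] at this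
    exact ⟨e6, e5, e3⟩
  · exfalso
    -- `z ≤ W z`
    have h4 : z ≤ W z := by
      by_contra h5
      rw [not_le] at h5
      have h6 : F z ≤ z := h.wF.down z h5.le
      have h7 : W (F z) ≤ W z := W.le_iff_le.mpr h6
      exact absurd (hC.trans h7) (not_le.mpr (h5.trans_le hzy))
    have h5 : V y < X.symm y := by
      have := V.lt_iff_lt.mpr h3
      rwa [h.vw] at this
    have h6 : V (R y) ≤ V y := V.le_iff_le.mpr (h.vR.down y (h5.le.trans hux))
    have h7 : X.symm y ≤ z := h.Xs_le_Gs hux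
    exact absurd (h6.trans_lt (h5.trans_le (h7.trans h4))) (not_lt.mpr h2)

/-- If everything is fixed, `A y = y`. -/
theorem BStage.A_fix (h : BStage X V W G F R) {y : Ω} (hx : X y = y) (hv : V y = y) :
    X (G (V (V (R y)))) = y := by
  rw [h.vR.fix hv, hv, hv, h.xG.fix hx, hx]

theorem BStage.w_fix (h : BStage X V W G F R) {y : Ω} (hx : X y = y) (hv : V y = y) :
    W y = y := by
  have h1 : V (W y) = y := by
    rw [h.vw, OrderIso.symm_apply_eq]; exact hx.symm
  exact V.injective (h1.trans hv.symm)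

theorem BStage.C_fix (h : BStage X V W G F R) {y : Ω} (hx : X y = y) (hv : V y = y) :
    W (F (G.symm y)) = y := by
  have hw := h.w_fix hx hv
  have hs : G.symm y = y := by rw [OrderIso.symm_apply_eq]; exact (h.xG.fix hx).symm
  rw [hs, h.wF.fix hw, hw]

/-- `A' = A W`. -/
theorem BStage.A'_eq (h : BStage X V W G F R) (y : Ω) :
    X (G (V (R (X.symm y)))) = X (G (V (V (R (W y))))) := by
  congr 2
  rw [h.vR.comm, ← h.vR.comm, ← h.vw, ← h.vR.comm]

/-- **Propagation.** -/
theorem BStage.prop (h : BStage X V W G F R) {y : Ω} (hA : y ≤ X (G (V (V (R y)))))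
    (hC : y ≤ W (F (G.symm y)))
    (hne : ¬ (X (G (V (V (R y)))) = y ∧ W (F (G.symm y)) = y)) :
    ∃ p, p ≤ y ∧ p ≤ X (G (V (R (X.symm p)))) ∧ W (F (G.symm y)) < F (G.symm (X.symm p)) := by
  have hx : X y < y := by
    by_contra h1
    rw [not_lt] at h1
    obtain ⟨h2, h3, _⟩ := h.xdown hA hC h1
    exact hne ⟨h.A_fix h2 h3, h.C_fix h2 h3⟩
  set u := X.symm y with hu
  have hXu : X u = y := X.apply_symm_apply y
  have hyu : y < u := by
    rw [← X.lt_iff_lt, hXu]; exact hx
  set z := G.symm y with hz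
  have hyz : y ≤ z := h.le_Gs hx.le
  have hzu : z ≤ u := h.Gs_le_Xs hyu.le
  set ξ := X.symm z with hξ
  have hξu : G.symm u = ξ := by rw [hu, h.comm_symm]
  have hzξ : z < ξ := by
    rw [← hξu, hz]; exact G.symm.lt_iff_lt.mpr hyu
  have h1 : ξ ≤ V (V (R y)) := by
    rw [← hξu, symm_le_iff', hu, symm_le_iff']; exact hA
  have hv : y < V y := by
    by_contra h2
    rw [not_lt] at h2
    have h3 : V (V (R y)) ≤ y :=
      (V.le_iff_le.mpr ((V.le_iff_le.mpr (h.vR.down y h2)).trans h2)).trans h2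
    exact absurd (hyz.trans_lt hzξ) (not_lt.mpr (h1.trans h3))
  have hξv : ξ < V ξ := by
    by_contra h2
    rw [not_lt] at h2
    obtain ⟨n, n1, n2, n3⟩ := fixUD V (hyz.trans_lt hzξ).le hv h2
    have h3 : V (V (R y)) < V (V (R n)) :=
      V.lt_iff_lt.mpr (V.lt_iff_lt.mpr (R.lt_iff_lt.mpr n1))
    rw [h.vR.fix n3, n3, n3] at h3
    exact absurd (h3.trans_le n2) (not_lt.mpr h1)
  -- `V (W z) = ξ`
  have hVWz : V (W z) = ξ := h.vw z
  have hWzξ : W z < ξ := by
    rw [← V.lt_iff_lt, hVWz]; exact hξv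
  have hcomm : W (F z) = F (W z) := h.wF.comm z
  rcases le_or_gt y (X (G (V (R u)))) with h2 | h2
  · exact ⟨y, le_rfl, h2, by rw [hcomm, ← hu, hξu]; exact F.lt_iff_lt.mpr hWzξ⟩
  · have hw : W y < y := by
      by_contra h4
      rw [not_lt] at h4
      have h5 : X (G (V (V (R y)))) ≤ X (G (V (V (R (W y))))) :=
        X.le_iff_le.mpr (G.le_iff_le.mpr (V.le_iff_le.mpr (V.le_iff_le.mpr
          (R.le_iff_le.mpr h4))))
      rw [← h.A'_eq] at h5
      exact absurd (hA.trans h5) (not_le.mpr h2)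
    have h3 : G (V (R u)) < u := by
      rw [← X.lt_iff_lt, hXu]; exact h2
    have h4 : u < V y := by
      have := V.lt_iff_lt.mpr hw
      rwa [h.vw] at this
    have h5 : z < V (R y) :=
      (hzu.trans_lt h4).trans_le (V.le_iff_le.mpr (h.vR.up y hv.le))
    have h6 : y < G (V (R y)) := by
      rw [← symm_lt_iff']; exact h5
    obtain ⟨ρ, r1, r2, r3⟩ := fixUD (R.trans (V.trans G)) hyu.le h6 h3.le
    have hVR : V (R ρ) = G.symm ρ := by
      rw [eq_comm, G.symm_apply_eq]; exact r3.symm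
    refine ⟨X ρ, ?_, ?_, ?_⟩
    · rw [← hXu]; exact X.le_iff_le.mpr r2
    · rw [X.symm_apply_apply, hVR, G.apply_symm_apply]
    · rw [X.symm_apply_apply, hcomm]
      apply F.lt_iff_lt.mpr
      rw [← hVR]
      have h7 : W z ≤ V (R y) := by
        rw [← V.le_iff_le, hVWz]; exact h1
      exact lt_of_le_of_lt h7 (V.lt_iff_lt.mpr (R.lt_iff_lt.mpr r1))

/-- If `y < C y`, `A y < y` and `W y ≤ y` then there is `p` with `p ≤ A' p` and `p < C' p`. -/
theorem BStage.wup (h : BStage X V W G F R) {y : Ω} (hC : y < W (F (G.symm y)))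
    (hA : X (G (V (V (R y)))) < y) (hw : W y ≤ y) :
    ∃ p, p ≤ X (G (V (R (X.symm p)))) ∧ p < F (G.symm (X.symm p)) := by
  set u := X.symm y with hu
  have hXu : X u = y := X.apply_symm_apply y
  set z := G.symm y with hz
  have hyu : y < u := by
    by_contra h1
    rw [not_lt] at h1
    have h0 : z ≤ y := h.Gs_le (by rw [← symm_le_iff']; exact h1)
    have h2 : W (F z) ≤ W (F y) := W.le_iff_le.mpr (F.le_iff_le.mpr h0)
    have h3 : W (F y) ≤ y := (W.le_iff_le.mpr (h.wF.down y hw)).trans hw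
    exact absurd hC (not_lt.mpr (h2.trans h3))
  have hxy : X y ≤ y := by rw [← le_symm_iff]; exact hyu.le
  have hyz : y ≤ z := h.le_Gs hxy
  have hzu : z ≤ u := h.Gs_le_Xs hyu.le
  have hvy : u ≤ V y := by
    have := V.le_iff_le.mpr hw
    rwa [h.vw] at this
  have h1 : V (R y) < W z := by
    rw [← V.lt_iff_lt, h.vw, hz, ← h.comm_symm, lt_symm_iff, lt_symm_iff]
    exact hA
  have h2 : z < W z := by
    have h3 : V y ≤ V (R y) := V.le_iff_le.mpr (h.vR.up y (hyu.le.trans hvy))
    exact lt_of_le_of_lt (hzu.trans (hvy.trans h3)) h1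
  obtain ⟨r, r1, r2, r3⟩ := fixNU W hyz hw h2
  have hXr : X r < r := by
    have := X.lt_iff_lt.mpr (r2.trans_le hzu)
    rw [hXu] at this
    exact this.trans_le r1
  have hVr : V r = X.symm r := by
    have := h.vw r
    rwa [r3] at this
  have hVr' : r < V r := by
    rw [hVr, ← X.lt_iff_lt, X.apply_symm_apply]; exact hXr
  refine ⟨X r, ?_, ?_⟩
  · rw [X.symm_apply_apply]
    apply X.le_iff_le.mpr
    rw [← symm_le_iff']
    have h3 : V r ≤ V (R r) := V.le_iff_le.mpr (h.vR.up r hVr'.le)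
    refine le_trans ?_ h3
    rw [hVr]
    exact h.Gs_le_Xs (hVr ▸ hVr'.le)
  · rw [X.symm_apply_apply]
    have h3 := F.le_iff_le.mpr (h.le_Gs hXr.le)
    rw [h.wF.fix r3] at h3
    exact hXr.trans_le h3

/-- `C` does not leave the upper side, unless there is a point `p` with `A' p ≤ p` and
`C' p < p`. -/
theorem BStage.stay (h : BStage X V W G F R) {y : Ω} (hC : y < W (F (G.symm y)))
    (hw : y < W y) (hC' : F (G.symm (X.symm y)) ≤ y) :
    X (G (V (R (X.symm y)))) < y ∨
      ∃ p, X (G (V (R (X.symm p)))) ≤ p ∧ F (G.symm (X.symm p)) < p := by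
  set u := X.symm y with hu
  have hXu : X u = y := X.apply_symm_apply y
  set ξ := G.symm u with hξ
  have hx : u ≤ y := by
    by_contra h1
    rw [not_le] at h1
    have huξ : u ≤ ξ := by
      apply h.le_Gs
      rw [hXu]; exact h1.le
    have h2 : W ξ ≤ ξ := by
      by_contra h3
      rw [not_le] at h3
      exact absurd ((h.wF.up ξ h3.le).trans hC') (not_le.mpr (h1.trans_le huξ))
    obtain ⟨n, n1, n2, n3⟩ := fixUD W (h1.trans_le huξ).le hw h2
    have h4 := F.le_iff_le.mpr n2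
    rw [h.wF.fix n3] at h4
    exact absurd (h4.trans hC') (not_le.mpr n1)
  have hyx : y ≤ X y := by rw [← symm_le_iff']; exact hx
  have hzy : G.symm y ≤ y := h.Gs_le hyx
  have huz : u ≤ G.symm y := h.Xs_le_Gs hx
  have hWz : G.symm y < W (G.symm y) := by
    by_contra h1
    rw [not_lt] at h1
    have h2 : W (F (G.symm y)) ≤ G.symm y := (W.le_iff_le.mpr (h.wF.down _ h1)).trans h1
    exact absurd hC (not_lt.mpr (h2.trans hzy))
  rcases le_or_gt (W u) u with h1 | hWu
  · right
    obtain ⟨r, r1, r2, r3⟩ := fixNU W huz h1 hWz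
    have hXr : r < X r := by
      have := X.le_iff_le.mpr r1
      rw [hXu] at this
      exact (r2.trans_le hzy).trans_le this
    have hVr : V r = X.symm r := by
      have := h.vw r
      rwa [r3] at this
    have hVr' : V r < r := by
      rw [hVr, ← X.lt_iff_lt, X.apply_symm_apply]; exact hXr
    refine ⟨X r, ?_, ?_⟩
    · rw [X.symm_apply_apply]
      apply X.le_iff_le.mpr
      rw [← le_symm_iff]
      have h3 : V (R r) ≤ V r := V.le_iff_le.mpr (h.vR.down r hVr'.le)
      refine h3.trans ?_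
      rw [hVr]
      exact h.Xs_le_Gs (hVr ▸ hVr'.le)
    · rw [X.symm_apply_apply]
      have h3 := F.le_iff_le.mpr (h.Gs_le hXr.le)
      rw [h.wF.fix r3] at h3
      exact h3.trans_lt hXr
  · left
    have hsu : X.symm u ≤ u := X.symm.le_iff_le.mpr hx
    have hVu : V u < X.symm u := by
      have := V.lt_iff_lt.mpr hWu
      rwa [h.vw] at this
    have hRu : R u ≤ u := h.vR.down u (hVu.le.trans hsu)
    have h3 : V (R u) < ξ :=
      (lt_of_le_of_lt (V.le_iff_le.mpr hRu) hVu).trans_le (h.Xs_le_Gs hsu)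
    have h4 : G (V (R u)) < u := by rw [← lt_symm_iff]; exact h3
    have h5 := X.lt_iff_lt.mpr h4
    rwa [hXu] at h5

end stage

/-- The chain: `linkA` and `linkC` say what `A` and `C` become. -/
structure BChain (X V W G F R : ℕ → Ω ≃o Ω) : Prop where
  st : ∀ j, BStage (X j) (V j) (W j) (G j) (F j) (R j)
  linkA : ∀ j y, X (j + 1) (G (j + 1) (V (j + 1) (V (j + 1) (R (j + 1) y))))
    = X j (G j (V j (R j ((X j).symm y))))
  linkC : ∀ j y, W (j + 1) (F (j + 1) ((G (j + 1)).symm y))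
    = F j ((G j).symm ((X j).symm y))

theorem BChain.dual {X V W G F R : ℕ → Ω ≃o Ω} (h : BChain X V W G F R) :
    BChain (Ω := Ωᵒᵈ) (fun j => (X j).dual) (fun j => (V j).dual) (fun j => (W j).dual)
      (fun j => (G j).dual) (fun j => (F j).dual) (fun j => (R j).dual) :=
  ⟨fun j => (h.st j).dual, fun j y => h.linkA j y, fun j y => h.linkC j y⟩

/-- Period `N`. -/
structure BPer (N : ℕ) (X V W G F R : ℕ → Ω ≃o Ω) : Prop where
  X : ∀ j, X (j + N) = X j
  V : ∀ j, V (j + N) = V j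
  W : ∀ j, W (j + N) = W j
  G : ∀ j, G (j + N) = G j
  F : ∀ j, F (j + N) = F j
  R : ∀ j, R (j + N) = R j

theorem BPer.dual {N : ℕ} {X V W G F R : ℕ → Ω ≃o Ω} (h : BPer N X V W G F R) :
    BPer (Ω := Ωᵒᵈ) N (fun j => (X j).dual) (fun j => (V j).dual) (fun j => (W j).dual)
      (fun j => (G j).dual) (fun j => (F j).dual) (fun j => (R j).dual) :=
  ⟨fun j => congrArg OrderIso.dual (h.X j), fun j => congrArg OrderIso.dual (h.V j),
    fun j => congrArg OrderIso.dual (h.W j), fun j => congrArg OrderIso.dual (h.G j),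
    fun j => congrArg OrderIso.dual (h.F j), fun j => congrArg OrderIso.dual (h.R j)⟩

section chain
variable {X V W G F R : ℕ → Ω ≃o Ω} {N : ℕ}

/-- `y ≤ A y` and `y ≤ C y` only if both are equalities. -/
theorem BChain.noboth (h : BChain X V W G F R) (hP : BPer N X V W G F R) (hN : 0 < N) (i : ℕ)
    (y : Ω) (hA : y ≤ X i (G i (V i (V i (R i y))))) (hC : y ≤ W i (F i ((G i).symm y))) :
    X i (G i (V i (V i (R i y)))) = y ∧ W i (F i ((G i).symm y)) = y := by
  by_contra hne
  have key : ∀ k, ∃ p, p ≤ y ∧ p ≤ X (i + k) (G (i + k) (V (i + k) (V (i + k) (R (i + k) p)))) ∧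
      p ≤ W (i + k) (F (i + k) ((G (i + k)).symm p)) ∧
      ¬ (X (i + k) (G (i + k) (V (i + k) (V (i + k) (R (i + k) p)))) = p ∧
        W (i + k) (F (i + k) ((G (i + k)).symm p)) = p) ∧
      W i (F i ((G i).symm y)) ≤ W (i + k) (F (i + k) ((G (i + k)).symm p)) ∧
      (0 < k → W i (F i ((G i).symm y)) < W (i + k) (F (i + k) ((G (i + k)).symm p))) := by
    intro k
    induction k with
    | zero => exact ⟨y, le_rfl, hA, hC, hne, le_rfl, fun h0 => absurd h0 (lt_irrefl _)⟩
    | succ k ih =>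
      obtain ⟨p, p1, p2, p3, p4, p5, -⟩ := ih
      obtain ⟨p', q1, q2, q3⟩ := (h.st (i + k)).prop p2 p3 p4
      rw [← h.linkA] at q2
      rw [← h.linkC] at q3
      have q4 : p' < W (i + k + 1) (F (i + k + 1) ((G (i + k + 1)).symm p')) :=
        lt_of_le_of_lt (q1.trans p3) q3
      exact ⟨p', q1.trans p1, q2, q4.le, fun hh => absurd hh.2 q4.ne', (p5.trans_lt q3).le,
        fun _ => p5.trans_lt q3⟩
  obtain ⟨p, p1, -, -, -, -, p6⟩ := key N
  have p7 := p6 hN
  rw [hP.W, hP.F, hP.G, (W i).lt_iff_lt, (F i).lt_iff_lt, (G i).symm.lt_iff_lt] at p7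
  exact absurd p7 (not_lt.mpr p1)

theorem BChain.noboth' (h : BChain X V W G F R) (hP : BPer N X V W G F R) (hN : 0 < N) (i : ℕ)
    (y : Ω) (hA : X i (G i (V i (V i (R i y)))) ≤ y) (hC : W i (F i ((G i).symm y)) ≤ y) :
    X i (G i (V i (V i (R i y)))) = y ∧ W i (F i ((G i).symm y)) = y :=
  BChain.noboth (Ω := Ωᵒᵈ) h.dual hP.dual hN i y hA hC

/-- The three types. -/
theorem BChain.tri (h : BChain X V W G F R) (hP : BPer N X V W G F R) (hN : 0 < N) (i : ℕ)
    (y : Ω) :
    (y < W i (F i ((G i).symm y)) ∧ X i (G i (V i (V i (R i y)))) < y) ∨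
    (W i (F i ((G i).symm y)) < y ∧ y < X i (G i (V i (V i (R i y))))) ∨
    (X i y = y ∧ V i y = y) := by
  have hfix : X i (G i (V i (V i (R i y)))) = y → W i (F i ((G i).symm y)) = y →
      X i y = y ∧ V i y = y := by
    intro e1 e2
    rcases le_total y (X i y) with h1 | h1
    · obtain ⟨a, b, _⟩ := (h.st i).xdown e1.ge e2.ge h1
      exact ⟨a, b⟩
    · obtain ⟨a, b, _⟩ := BStage.xdown (Ω := Ωᵒᵈ) (h.st i).dual (y := y) e1.le e2.le h1
      exact ⟨a, b⟩
  rcases lt_trichotomy y (W i (F i ((G i).symm y))) with h1 | h1 | h1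
  · rcases lt_or_ge (X i (G i (V i (V i (R i y))))) y with h2 | h2
    · exact Or.inl ⟨h1, h2⟩
    · exact absurd (h.noboth hP hN i y h2 h1.le).2 h1.ne'
  · rcases le_total y (X i (G i (V i (V i (R i y))))) with h2 | h2
    · have h3 := h.noboth hP hN i y h2 h1.le
      exact Or.inr (Or.inr (hfix h3.1 h3.2))
    · have h3 := h.noboth' hP hN i y h2 h1.ge
      exact Or.inr (Or.inr (hfix h3.1 h3.2))
  · rcases lt_or_ge y (X i (G i (V i (V i (R i y))))) with h2 | h2
    · exact Or.inr (Or.inl ⟨h1, h2⟩)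
    · exact absurd (h.noboth' hP hN i y h2 h1.le).2 h1.ne

/-- In the first type `y < W y`. -/
theorem BChain.w_up (h : BChain X V W G F R) (hP : BPer N X V W G F R) (hN : 0 < N) (i : ℕ)
    (y : Ω) (hC : y < W i (F i ((G i).symm y))) (hA : X i (G i (V i (V i (R i y)))) < y) :
    y < W i y := by
  by_contra h1
  rw [not_lt] at h1
  obtain ⟨p, p1, p2⟩ := (h.st i).wup hC hA h1
  rw [← h.linkA] at p1
  rw [← h.linkC] at p2
  exact absurd (h.noboth hP hN (i + 1) p p1 p2.le).2 p2.ne'

/-- The first type is kept. -/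
theorem BChain.keep (h : BChain X V W G F R) (hP : BPer N X V W G F R) (hN : 0 < N) (i : ℕ)
    (y : Ω) (hC : y < W i (F i ((G i).symm y))) (hA : X i (G i (V i (V i (R i y)))) < y) :
    y < W (i + 1) (F (i + 1) ((G (i + 1)).symm y)) ∧
      X (i + 1) (G (i + 1) (V (i + 1) (V (i + 1) (R (i + 1) y)))) < y := by
  have hw := h.w_up hP hN i y hC hA
  have key : W (i + 1) (F (i + 1) ((G (i + 1)).symm y)) ≤ y →
      X (i + 1) (G (i + 1) (V (i + 1) (V (i + 1) (R (i + 1) y)))) < y := by
    intro h1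
    rw [h.linkC] at h1
    rcases (h.st i).stay hC hw h1 with h2 | ⟨p, p1, p2⟩
    · rw [h.linkA]; exact h2
    · rw [← h.linkA] at p1
      rw [← h.linkC] at p2
      exact absurd (h.noboth' hP hN (i + 1) p p1 p2.le).2 p2.ne
  rcases h.tri hP hN (i + 1) y with h1 | ⟨h1, h2⟩ | ⟨h1, h2⟩
  · exact h1
  · exact absurd (key h1.le) (not_lt.mpr h2.le)
  · have h3 := key ((h.st (i + 1)).C_fix h1 h2).le
    rw [(h.st (i + 1)).A_fix h1 h2] at h3
    exact absurd h3 (lt_irrefl _)

/-- The first type is impossible. -/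
theorem BChain.no_first (h : BChain X V W G F R) (hP : BPer N X V W G F R) (hN : 0 < N) (i : ℕ)
    (y : Ω) (hC : y < W i (F i ((G i).symm y))) (hA : X i (G i (V i (V i (R i y)))) < y) :
    False := by
  have key : ∀ j, i ≤ j → y < W j (F j ((G j).symm y)) ∧ X j (G j (V j (V j (R j y)))) < y := by
    intro j hj
    induction j, hj using Nat.le_induction with
    | base => exact ⟨hC, hA⟩
    | succ j _ ih => exact h.keep hP hN j y ih.1 ih.2
  refine Pool.Agent.N463.PZ.no_incr (u := fun j => X j (G j (V j (V j (R j y))))) (i := i) hN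
    ?_ ?_
  · show X (i + N) (G (i + N) (V (i + N) (V (i + N) (R (i + N) y)))) = _
    rw [hP.X, hP.V, hP.R, hP.G]
  · intro j hj
    show X j (G j (V j (V j (R j y)))) <
      X (j + 1) (G (j + 1) (V (j + 1) (V (j + 1) (R (j + 1) y))))
    rw [h.linkA, (h.st j).A'_eq]
    have hw := h.w_up hP hN j y (key j hj).1 (key j hj).2
    exact (X j).lt_iff_lt.mpr ((G j).lt_iff_lt.mpr ((V j).lt_iff_lt.mpr ((V j).lt_iff_lt.mpr
      ((R j).lt_iff_lt.mpr hw))))

/-- every point is fixed by all `X j`, `V j`. -/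
theorem BChain.fixed (h : BChain X V W G F R) (hP : BPer N X V W G F R) (hN : 0 < N) (j : ℕ)
    (y : Ω) : X j y = y ∧ V j y = y := by
  rcases h.tri hP hN j y with ⟨h1, h2⟩ | ⟨h1, h2⟩ | h1
  · exact (h.no_first hP hN j y h1 h2).elim
  · exact (BChain.no_first (Ω := Ωᵒᵈ) h.dual hP.dual hN j y h1 h2).elim
  · exact h1

end chain

end Pool.Agent.U541.PB
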