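import Pool.Agent.U541.PB.Chain
import Pool.Agent.TH821.HexGroup

set_option autoImplicit false

/-!
# Left-ordered groups and the relations of the chain with `0 ≤ p ≤ 1`
-/

namespace Pool.Agent.U541.PB

open Pool.Agent.W705.Borr Pool.Agent.TH821.Chain Pool.Agent.TH821.Hex

/-- The relations between the generators `x i, v i, w i` and the elements `g i`, `f i`, `r i`. -/
structure BRel {H : Type*} [Group H] {n : ℕ} (x v w g f r : ZMod n → H)
    (a b : Fin 3 → ZMod n → ℕ) : Prop where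
  prod : ∀ i, x i * v i * w i = 1
  xg : ∀ i, Fol (x i) (g i) (a 0 i) (b 0 i)
  ab : ∀ i, a 0 i ≤ b 0 i
  vr : ∀ i, Fol (v i) (r i) (a 1 i) (b 1 i)
  wf : ∀ i, Fol (w i) (f i) (a 2 i) (b 2 i)
  relA : ∀ i, x (i + 1) * g (i + 1) * v (i + 1) * v (i + 1) * r (i + 1) =
    x i * g i * v i * v i * r i * w i
  relB : ∀ i, (v (i + 1) * r (i + 1))⁻¹ * (f (i + 1))⁻¹ = x i * (v i * r i)⁻¹ * (f i)⁻¹

/-- `g⁻¹ x` also follows `x`. -/
theorem fol_compl {H : Type*} [Group H] {x g : H} {a b : ℕ} (h : Fol x g a b) (hab : a ≤ b) :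
    Fol x (g⁻¹ * x) (b - a) b := by
  have hc : Commute x g := h.comm
  refine ⟨?_, h.pos, ?_⟩
  · exact ((hc.inv_right).mul_right (Commute.refl x)).eq
  · have h1 : Commute g⁻¹ x := hc.symm.inv_left
    rw [h1.mul_pow, inv_pow, h.pow]
    rw [inv_mul_eq_iff_eq_mul, ← pow_add]
    congr 1
    omega

section alg
variable {H : Type*} [Group H] {n : ℕ} {x v w g f r : ZMod n → H} {a b : Fin 3 → ZMod n → ℕ}

theorem BRel.vw (R : BRel x v w g f r a b) (i : ZMod n) : v i * w i = (x i)⁻¹ := by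
  have := R.prod i
  rw [eq_inv_iff_mul_eq_one]
  calc v i * w i * x i = (x i)⁻¹ * (x i * v i * w i) * x i := by group
    _ = 1 := by rw [this]; group

theorem BRel.A' (R : BRel x v w g f r a b) (i : ZMod n) :
    x (i + 1) * (g (i + 1) * (v (i + 1) * (v (i + 1) * r (i + 1)))) =
      x i * (g i * (v i * (r i * (x i)⁻¹))) := by
  have hc := (R.vr i).comm
  calc x (i + 1) * (g (i + 1) * (v (i + 1) * (v (i + 1) * r (i + 1))))
      = x (i + 1) * g (i + 1) * v (i + 1) * v (i + 1) * r (i + 1) := by group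
    _ = x i * g i * v i * v i * r i * w i := R.relA i
    _ = x i * g i * v i * (v i * r i) * w i := by group
    _ = x i * (g i * (v i * (r i * (v i * w i)))) := by rw [hc]; group
    _ = _ := by rw [R.vw]

theorem BRel.C' (R : BRel x v w g f r a b) (i : ZMod n) :
    w (i + 1) * (f (i + 1) * (g (i + 1))⁻¹) = f i * ((g i)⁻¹ * (x i)⁻¹) := by
  have h1 : ∀ j, w j * (f j * (g j)⁻¹) =
      ((x j * (g j * (v j * (v j * r j)))) * ((v j * r j)⁻¹ * (f j)⁻¹))⁻¹ := by
    intro j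
    have hc := (R.wf j).comm
    have hg := (R.xg j).comm
    have h2 : x j * v j = (w j)⁻¹ := by
      rw [eq_inv_iff_mul_eq_one]; exact R.prod j
    calc w j * (f j * (g j)⁻¹) = (w j * f j) * (g j)⁻¹ := by group
      _ = f j * ((w j)⁻¹)⁻¹ * (g j)⁻¹ := by rw [hc]; group
      _ = f j * (x j * v j)⁻¹ * (g j)⁻¹ := by rw [h2]
      _ = f j * (v j)⁻¹ * (g j * x j)⁻¹ := by group
      _ = f j * (v j)⁻¹ * (x j * g j)⁻¹ := by rw [hg]
      _ = _ := by group
  rw [h1, R.A', R.relB]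
  calc (x i * (g i * (v i * (r i * (x i)⁻¹))) * (x i * (v i * r i)⁻¹ * (f i)⁻¹))⁻¹
      = f i * (v i * r i) * (v i * r i)⁻¹ * ((g i)⁻¹ * (x i)⁻¹) := by group
    _ = _ := by group

end alg

section act
variable {H : Type*} [Group H] [LinearOrder H] (hinv : ∀ a b c : H, a ≤ b ↔ c * a ≤ c * b)

include hinv in
/-- In a left-ordered group the relations force triviality. -/
theorem rel_trivial {n : ℕ} (hn : 0 < n) {x v w g f r : ZMod n → H} {a b : Fin 3 → ZMod n → ℕ}
    (R : BRel x v w g f r a b) (i : ZMod n) : x i = 1 ∧ v i = 1 := by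
  have : NeZero n := ⟨hn.ne'⟩
  have hN0 : ∀ j : ℕ, ((j + n : ℕ) : ZMod n) = (j : ZMod n) := by
    intro j; push_cast; rw [ZMod.natCast_self, add_zero]
  have hC : BChain (fun j : ℕ => act hinv (x j)) (fun j : ℕ => act hinv (v j))
      (fun j : ℕ => act hinv (w j)) (fun j : ℕ => act hinv (g j)) (fun j : ℕ => act hinv (f j))
      (fun j : ℕ => act hinv (r j)) := by
    refine ⟨?_, ?_, ?_⟩
    · intro j
      refine ⟨?_, follows_of_fol hinv (R.xg _), ?_, follows_of_fol hinv (R.vr _),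
        follows_of_fol hinv (R.wf _)⟩
      · intro u
        rw [← act_mul, ← act_mul, R.prod, act_one]
      · have e : (act hinv (x j)).trans (act hinv (g j)).symm = act hinv ((g j)⁻¹ * x j) := by
          apply OrderIso.ext
          funext u
          rw [act_mul, act_inv]; rfl
        show Follows (act hinv (x j)) ((act hinv (x j)).trans (act hinv (g j)).symm)
        rw [e]
        exact follows_of_fol hinv (fol_compl (R.xg _) (R.ab _))
    · intro j y
      simp only [← act_inv, ← act_mul]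
      rw [Nat.cast_add, Nat.cast_one, R.A' (j : ZMod n)]
    · intro j y
      simp only [← act_inv, ← act_mul]
      rw [Nat.cast_add, Nat.cast_one, R.C' (j : ZMod n)]
  have hP : BPer n (fun j : ℕ => act hinv (x j)) (fun j : ℕ => act hinv (v j))
      (fun j : ℕ => act hinv (w j)) (fun j : ℕ => act hinv (g j)) (fun j : ℕ => act hinv (f j))
      (fun j : ℕ => act hinv (r j)) := by
    refine ⟨?_, ?_, ?_, ?_, ?_, ?_⟩ <;> intro j <;> simp only [hN0]
  have hi : ((i.val : ℕ) : ZMod n) = i := ZMod.natCast_zmod_val i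
  constructor
  · apply eq_one_of_act hinv
    intro y
    have := (hC.fixed hP hn i.val y).1
    simp only [hi] at this
    exact this
  · apply eq_one_of_act hinv
    intro y
    have := (hC.fixed hP hn i.val y).2
    simp only [hi] at this
    exact this

include hinv in
/-- left-ordered groups are torsion free -/
theorem eq_one_of_pow {x : H} {b : ℕ} (hb : 0 < b) (h : x ^ b = 1) : x = 1 := by
  have hpos : ∀ y : H, 1 < y → ∀ k : ℕ, 1 < y ^ (k + 1) := by
    intro y hy k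
    have hlt : ∀ a b c : H, a < b ↔ c * a < c * b := fun a b c => by
      rw [← not_le, ← not_le, not_iff_not]; exact hinv b a c
    induction k with
    | zero => simpa using hy
    | succ k ih =>
      rw [pow_succ']
      have := (hlt 1 (y ^ (k + 1)) y).mp ih
      rw [mul_one] at this
      exact hy.trans this
  obtain ⟨k, rfl⟩ := Nat.exists_eq_add_of_le' hb
  rcases lt_trichotomy x 1 with h1 | h1 | h1
  · have h2 : 1 < x⁻¹ := by
      rw [← not_le, hinv _ _ x, mul_inv_cancel, mul_one]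
      exact not_le.mpr h1
    have := hpos _ h2 k
    rw [inv_pow, h, inv_one] at this
    exact absurd this (lt_irrefl _)
  · exact h1
  · have := hpos _ h1 k
    rw [h] at this
    exact absurd this (lt_irrefl _)

end act

/-! ### The kernel of a homomorphism to `Z/n` -/

section kernel
open Pool.Agent.TH821.Cyc
variable {G : Type*} [Group G] {n : ℕ}

/-- The subgroup generated by the conjugates `s ^ i t s ^ (-i)` of the elements `t ∈ T`. -/
def NT (n : ℕ) (s : G) (T : Set G) : Subgroup G :=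
  Subgroup.closure {y | ∃ t ∈ T, ∃ i : ZMod n, y = cj s t i}

theorem NT_conj (hn : 0 < n) {s : G} {T : Set G} (hs : s ^ n = 1) {x : G} (hx : x ∈ NT n s T) :
    s * x * s⁻¹ ∈ NT n s T := by
  induction hx using Subgroup.closure_induction with
  | mem x hx =>
    obtain ⟨t, ht, i, rfl⟩ := hx
    rw [← cj_succ hn hs]
    exact Subgroup.subset_closure ⟨t, ht, i + 1, rfl⟩
  | one => simpa using Subgroup.one_mem _
  | mul x y _ _ hx hy =>
    have : s * (x * y) * s⁻¹ = (s * x * s⁻¹) * (s * y * s⁻¹) := by group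
    rw [this]; exact mul_mem hx hy
  | inv x _ hx =>
    have : s * x⁻¹ * s⁻¹ = (s * x * s⁻¹)⁻¹ := by group
    rw [this]; exact inv_mem hx

theorem NT_conj_pow (hn : 0 < n) {s : G} {T : Set G} (hs : s ^ n = 1) {x : G}
    (hx : x ∈ NT n s T) (m : ℕ) : s ^ m * x * (s ^ m)⁻¹ ∈ NT n s T := by
  induction m with
  | zero => simpa using hx
  | succ m ih =>
    have : s ^ (m + 1) * x * (s ^ (m + 1))⁻¹ = s * (s ^ m * x * (s ^ m)⁻¹) * s⁻¹ := by
      rw [pow_succ']; group
    rw [this]; exact NT_conj hn hs ih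

/-- The subgroup `NT ⟨s⟩`. -/
def NTS (hn : 0 < n) {s : G} (T : Set G) (hs : s ^ n = 1) : Subgroup G where
  carrier := {g | ∃ x ∈ NT n s T, ∃ m : ℕ, g = x * s ^ m}
  mul_mem' := by
    rintro _ _ ⟨x, hx, m, rfl⟩ ⟨y, hy, l, rfl⟩
    refine ⟨x * (s ^ m * y * (s ^ m)⁻¹), mul_mem hx (NT_conj_pow hn hs hy m), m + l, ?_⟩
    rw [pow_add]; group
  one_mem' := ⟨1, one_mem _, 0, by simp⟩
  inv_mem' := by
    rintro _ ⟨x, hx, m, rfl⟩
    refine ⟨s ^ (m * (n - 1)) * x⁻¹ * (s ^ (m * (n - 1)))⁻¹,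
      NT_conj_pow hn hs (inv_mem hx) _, m * (n - 1), ?_⟩
    rw [mul_inv_rev, inv_eq_pow hn hs m]; group

/-- If `G` is generated by `s` and `T` then the kernel of `d` is contained in `NT`. -/
theorem ker_le_NT (hn : 0 < n) {s : G} {T : Set G} (hs : s ^ n = 1)
    (hgen : Subgroup.closure (insert s T) = ⊤)
    (d : G →* Multiplicative (ZMod n)) (ds : d s = Multiplicative.ofAdd 1)
    (dT : ∀ t ∈ T, d t = 1) {g : G} (hg : d g = 1) : g ∈ NT n s T := by
  have h1 : NTS hn T hs = ⊤ := by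
    rw [eq_top_iff, ← hgen, Subgroup.closure_le]
    rintro y (rfl | hy)
    · exact ⟨1, one_mem _, 1, by simp⟩
    · exact ⟨y, Subgroup.subset_closure ⟨y, hy, 0, (cj_zero hn s y).symm⟩, 0, by simp⟩
  have h2 : NT n s T ≤ d.ker := by
    unfold NT
    rw [Subgroup.closure_le]
    rintro _ ⟨t, ht, i, rfl⟩
    show d _ = 1
    unfold cj; rw [map_mul, map_mul, dT t ht, map_inv]; simp
  have h3 : g ∈ NTS hn T hs := by rw [h1]; trivial
  obtain ⟨x, hx, m, rfl⟩ := h3
  have h4 : d x = 1 := h2 hx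
  rw [map_mul, h4, one_mul, map_pow, ds, ← ofAdd_nsmul] at hg
  have h5 : (m : ZMod n) = 0 := by
    have := Multiplicative.ofAdd.injective (hg.trans ofAdd_zero.symm)
    simpa using this
  rw [ZMod.natCast_eq_zero_iff] at h5
  obtain ⟨l, rfl⟩ := h5
  rw [pow_mul, hs, one_pow, mul_one]
  exact hx

/-- The conjugate of an element of the kernel by the `i`-th power of `s`. -/
def kc (d : G →* Multiplicative (ZMod n)) (s : G) (x : d.ker) (i : ZMod n) : d.ker :=
  ⟨cj s x.1 i, by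
    show d (cj s x.1 i) = 1
    unfold cj
    rw [map_mul, map_mul, show d x.1 = 1 from x.2, map_inv]; simp⟩

theorem kc_mul (d : G →* Multiplicative (ZMod n)) (s : G) (x y : d.ker) (i : ZMod n) :
    kc d s (x * y) i = kc d s x i * kc d s y i := by
  apply Subtype.ext
  show cj s (x.1 * y.1) i = cj s x.1 i * cj s y.1 i
  unfold cj; group

theorem kc_one (d : G →* Multiplicative (ZMod n)) (s : G) (i : ZMod n) :
    kc d s 1 i = 1 := by
  apply Subtype.ext
  show cj s (1 : G) i = 1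
  unfold cj; group

/-- conjugation as a homomorphism -/
def kch (d : G →* Multiplicative (ZMod n)) (s : G) (i : ZMod n) : d.ker →* d.ker where
  toFun x := kc d s x i
  map_one' := kc_one d s i
  map_mul' x y := kc_mul d s x y i

theorem kch_succ (hn : 0 < n) (d : G →* Multiplicative (ZMod n)) {s : G} (hs : s ^ n = 1)
    (i : ZMod n) (x y : d.ker) (h : s * x.1 * s⁻¹ = y.1) : kch d s (i + 1) x = kch d s i y := by
  apply Subtype.ext
  show cj s x.1 (i + 1) = cj s y.1 i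
  rw [cj_succ hn hs, ← h]
  unfold cj
  have hcomm : Commute s (s ^ i.val) := (Commute.refl s).pow_right _
  have e1 : s * s ^ i.val = s ^ i.val * s := hcomm.eq
  have e2 : (s ^ i.val)⁻¹ * s⁻¹ = s⁻¹ * (s ^ i.val)⁻¹ := by
    rw [← mul_inv_rev, ← mul_inv_rev, e1]
  calc s * (s ^ i.val * x.1 * (s ^ i.val)⁻¹) * s⁻¹
      = (s * s ^ i.val) * x.1 * ((s ^ i.val)⁻¹ * s⁻¹) := by group
    _ = _ := by rw [e1, e2]; group

/-- **Homomorphisms from the kernel of `d` to a left-ordered group** which kill the slopes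
`c j ^ b j i = x j ^ a j i` of the circles. -/
theorem hom_trivial (hn : 0 < n) {s X V c₀ c₁ c₂ : G} (hs : s ^ n = 1)
    (hgen : Subgroup.closure (insert s {X, V, c₀, c₁, c₂}) = ⊤)
    (d : G →* Multiplicative (ZMod n)) (ds : d s = Multiplicative.ofAdd 1) (dX : d X = 1)
    (dV : d V = 1) (d₀ : d c₀ = 1) (d₁ : d c₁ = 1) (d₂ : d c₂ = 1)
    (k₀ : Commute X c₀) (k₁ : Commute V c₁) (k₂ : Commute (X * V)⁻¹ c₂)
    (A : s * (X * c₀ * (V * c₁⁻¹)) * s⁻¹ = X * c₀ * (V * c₁⁻¹) * (X * V)⁻¹)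
    (B : s * (c₁ * c₂⁻¹) * s⁻¹ = X * c₁ * c₂⁻¹)
    (a b : Fin 3 → ZMod n → ℕ) (hb : ∀ j i, 0 < b j i) (hab : ∀ i, a 0 i ≤ b 0 i)
    {H : Type*} [Group H] [LinearOrder H] (hinv : ∀ a b c : H, a ≤ b ↔ c * a ≤ c * b)
    (φ : d.ker →* H)
    (S₀ : ∀ i, φ (kch d s i ⟨c₀, d₀⟩) ^ b 0 i = φ (kch d s i ⟨X, dX⟩) ^ a 0 i)
    (S₁ : ∀ i, ((φ (kch d s i ⟨c₁, d₁⟩))⁻¹) ^ b 1 i = φ (kch d s i ⟨V, dV⟩) ^ (a 1 i + b 1 i))
    (S₂ : ∀ i, φ (kch d s i ⟨c₂, d₂⟩) ^ b 2 i =
      ((φ (kch d s i ⟨X, dX⟩) * φ (kch d s i ⟨V, dV⟩))⁻¹) ^ a 2 i)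
    (y : d.ker) : φ y = 1 := by
  set X' : d.ker := ⟨X, dX⟩ with hX'
  set V' : d.ker := ⟨V, dV⟩ with hV'
  set C₀ : d.ker := ⟨c₀, d₀⟩ with hC₀
  set C₁ : d.ker := ⟨c₁, d₁⟩ with hC₁
  set C₂ : d.ker := ⟨c₂, d₂⟩ with hC₂
  have K₀ : Commute X' C₀ := Subtype.ext k₀.eq
  have K₁ : Commute V' C₁ := Subtype.ext k₁.eq
  have K₂ : Commute (X' * V')⁻¹ C₂ := Subtype.ext k₂.eq
  have key : ∀ (i : ZMod n) (x y : d.ker), s * x.1 * s⁻¹ = y.1 →
      φ (kch d s (i + 1) x) = φ (kch d s i y) := by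
    intro i x y hxy
    rw [kch_succ hn d hs i x y hxy]
  have R : BRel (fun i => φ (kch d s i X')) (fun i => φ (kch d s i V'))
      (fun i => φ (kch d s i (X' * V')⁻¹)) (fun i => φ (kch d s i C₀))
      (fun i => φ (kch d s i C₂)) (fun i => φ (kch d s i (V'⁻¹ * C₁⁻¹))) a b := by
    refine ⟨?_, ?_, hab, ?_, ?_, ?_, ?_⟩
    · intro i
      show φ _ * φ _ * φ _ = 1
      rw [← map_mul, ← map_mul, ← map_mul, ← map_mul, mul_inv_cancel, map_one, map_one]
    · intro i
      refine ⟨?_, hb 0 i, S₀ i⟩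
      show φ _ * φ _ = φ _ * φ _
      rw [← map_mul, ← map_mul, ← map_mul, ← map_mul, K₀.eq]
    · intro i
      have hK : Commute V' (V'⁻¹ * C₁⁻¹) :=
        ((Commute.refl V').inv_right).mul_right K₁.inv_right
      refine ⟨?_, hb 1 i, ?_⟩
      · show φ _ * φ _ = φ _ * φ _
        rw [← map_mul, ← map_mul, ← map_mul, ← map_mul, hK.eq]
      · show φ (kch d s i (V'⁻¹ * C₁⁻¹)) ^ b 1 i = φ (kch d s i V') ^ a 1 i
        have hK2 : Commute (φ (kch d s i V'))⁻¹ (φ (kch d s i C₁))⁻¹ := by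
          have := (K₁.map (kch d s i)).map φ
          exact this.inv_inv
        rw [map_mul, map_mul, map_inv, map_inv, map_inv, map_inv, hK2.mul_pow, S₁ i, inv_pow,
          add_comm (a 1 i), pow_add, inv_mul_cancel_left]
    · intro i
      refine ⟨?_, hb 2 i, ?_⟩
      · show φ _ * φ _ = φ _ * φ _
        rw [← map_mul, ← map_mul, ← map_mul, ← map_mul, K₂.eq]
      · show φ (kch d s i C₂) ^ b 2 i = φ (kch d s i (X' * V')⁻¹) ^ a 2 i
        rw [S₂ i, map_inv, map_inv, map_mul, map_mul]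
    · intro i
      have e : X' * C₀ * V' * V' * (V'⁻¹ * C₁⁻¹) = X' * C₀ * (V' * C₁⁻¹) := by group
      have := key i (X' * C₀ * (V' * C₁⁻¹)) (X' * C₀ * (V' * C₁⁻¹) * (X' * V')⁻¹) A
      show φ _ * φ _ * φ _ * φ _ * φ _ = φ _ * φ _ * φ _ * φ _ * φ _ * φ _
      rw [← map_mul φ, ← map_mul φ, ← map_mul φ, ← map_mul φ, ← map_mul (kch d s (i + 1)),
        ← map_mul (kch d s (i + 1)), ← map_mul (kch d s (i + 1)), ← map_mul (kch d s (i + 1)), e,
        this]
      rw [← map_mul φ, ← map_mul φ, ← map_mul φ, ← map_mul φ, ← map_mul φ, ← map_mul (kch d s i),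
        ← map_mul (kch d s i), ← map_mul (kch d s i), ← map_mul (kch d s i),
        ← map_mul (kch d s i), e]
    · intro i
      have e : (V' * (V'⁻¹ * C₁⁻¹))⁻¹ = C₁ := by group
      have := key i (C₁ * C₂⁻¹) (X' * C₁ * C₂⁻¹) B
      show (φ _ * φ _)⁻¹ * (φ _)⁻¹ = φ _ * (φ _ * φ _)⁻¹ * (φ _)⁻¹
      rw [← map_mul φ, ← map_inv φ, ← map_inv φ, ← map_mul φ, ← map_mul (kch d s (i + 1)),
        ← map_inv (kch d s (i + 1)), ← map_inv (kch d s (i + 1)), ← map_mul (kch d s (i + 1)),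
        e, this]
      rw [← map_mul φ, ← map_inv φ, ← map_inv φ, ← map_mul φ, ← map_mul φ,
        ← map_mul (kch d s i), ← map_inv (kch d s i), ← map_inv (kch d s i),
        ← map_mul (kch d s i), ← map_mul (kch d s i), e]
  have triv := fun i => rel_trivial hinv hn R i
  have tX : ∀ i, φ (kch d s i X') = 1 := fun i => (triv i).1
  have tV : ∀ i, φ (kch d s i V') = 1 := fun i => (triv i).2
  have t₀ : ∀ i, φ (kch d s i C₀) = 1 := by
    intro i
    apply eq_one_of_pow hinv (hb 0 i)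
    rw [S₀ i, tX i, one_pow]
  have t₁ : ∀ i, φ (kch d s i C₁) = 1 := by
    intro i
    rw [← inv_eq_one]
    apply eq_one_of_pow hinv (hb 1 i)
    rw [S₁ i, tV i, one_pow]
  have t₂ : ∀ i, φ (kch d s i C₂) = 1 := by
    intro i
    apply eq_one_of_pow hinv (hb 2 i)
    rw [S₂ i, tX i, tV i, one_mul, inv_one, one_pow]
  have h1 : NT n s {X, V, c₀, c₁, c₂} ≤ φ.ker.map d.ker.subtype := by
    unfold NT
    rw [Subgroup.closure_le]
    rintro _ ⟨t, ht, i, rfl⟩
    rcases ht with rfl | rfl | rfl | rfl | rfl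
    · exact ⟨kch d s i X', tX i, rfl⟩
    · exact ⟨kch d s i V', tV i, rfl⟩
    · exact ⟨kch d s i C₀, t₀ i, rfl⟩
    · exact ⟨kch d s i C₁, t₁ i, rfl⟩
    · exact ⟨kch d s i C₂, t₂ i, rfl⟩
  have dT : ∀ t ∈ ({X, V, c₀, c₁, c₂} : Set G), d t = 1 := by
    rintro t (rfl | rfl | rfl | rfl | rfl) <;> assumption
  obtain ⟨g', hg', hgg⟩ := h1 (ker_le_NT hn hs hgen d ds dT y.2)
  have : g' = y := Subtype.ext hgg
  rw [← this]; exact hg'

end kernel

end Pool.Agent.U541.PB
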