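import Pool.Agent.U541.PB.Group

set_option autoImplicit false

/-!
# The positive chain: from the kernel to the relations `Pool.Agent.TH821.Hex.Rel`
-/

namespace Pool.Agent.U541.PB

open Pool.Agent.W705.Borr Pool.Agent.TH821.Chain Pool.Agent.TH821.Hex

variable {G : Type*} [Group G] {n : ℕ}

/-- **Homomorphisms from the kernel of `d` to a left-ordered group** which kill the slopes
`c j ^ b j i = x j ^ a j i` of the circles, for at most five sheets. -/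
theorem hom_trivial_pos (hn : 0 < n) (hn5 : n ≤ 5) {s X V c₀ c₁ c₂ : G} (hs : s ^ n = 1)
    (hgen : Subgroup.closure (insert s {X, V, c₀, c₁, c₂}) = ⊤)
    (d : G →* Multiplicative (ZMod n)) (ds : d s = Multiplicative.ofAdd 1) (dX : d X = 1)
    (dV : d V = 1) (d₀ : d c₀ = 1) (d₁ : d c₁ = 1) (d₂ : d c₂ = 1)
    (k₀ : Commute X c₀) (k₁ : Commute V c₁) (k₂ : Commute (X * V)⁻¹ c₂)
    (A : s * (c₀ * X * c₁⁻¹) * s⁻¹ = c₀ * X * c₁⁻¹ * (X * V)⁻¹)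
    (B : s * (c₁ * V * c₂⁻¹) * s⁻¹ = X * (c₁ * V * c₂⁻¹))
    (a b : Fin 3 → ZMod n → ℕ) (hb : ∀ j i, 0 < b j i)
    {H : Type*} [Group H] [LinearOrder H] (hinv : ∀ a b c : H, a ≤ b ↔ c * a ≤ c * b)
    (φ : d.ker →* H)
    (S₀ : ∀ i, φ (kch d s i ⟨c₀, d₀⟩) ^ b 0 i = φ (kch d s i ⟨X, dX⟩) ^ a 0 i)
    (S₁ : ∀ i, φ (kch d s i ⟨c₁, d₁⟩) ^ b 1 i = φ (kch d s i ⟨V, dV⟩) ^ a 1 i)
    (S₂ : ∀ i, φ (kch d s i ⟨c₂, d₂⟩) ^ b 2 i =
      ((φ (kch d s i ⟨X, dX⟩) * φ (kch d s i ⟨V, dV⟩))⁻¹) ^ a 2 i)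
    (y : d.ker) : φ y = 1 := by
  set X' : d.ker := ⟨X, dX⟩ with hX'
  set V' : d.ker := ⟨V, dV⟩ with hV'
  set C₀ : d.ker := ⟨c₀, d₀⟩ with hC₀
  set C₁ : d.ker := ⟨c₁, d₁⟩ with hC₁
  set C₂ : d.ker := ⟨c₂, d₂⟩ with hC₂
  have K₀ : Commute X' C₀ := Subtype.ext k₀.eq
  have K₁ : Commute V' C₁ := Subtype.ext k₁.eq
  have K₂ : Commute (X' * V')⁻¹ C₂ := Subtype.ext k₂.eq
  have key : ∀ (i : ZMod n) (x y : d.ker), s * x.1 * s⁻¹ = y.1 →
      φ (kch d s (i + 1) x) = φ (kch d s i y) := by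
    intro i x y hxy
    rw [kch_succ hn d hs i x y hxy]
  have R : Rel (fun i => φ (kch d s i X')) (fun i => φ (kch d s i V'))
      (fun i => φ (kch d s i (X' * V')⁻¹)) (fun i => φ (kch d s i C₀))
      (fun i => φ (kch d s i C₁)) (fun i => φ (kch d s i C₂)) a b := by
    refine ⟨?_, ?_, ?_, ?_, ?_, ?_⟩
    · intro i
      show φ _ * φ _ * φ _ = 1
      rw [← map_mul, ← map_mul, ← map_mul, ← map_mul, mul_inv_cancel, map_one, map_one]
    · intro i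
      refine ⟨?_, hb 0 i, S₀ i⟩
      show φ _ * φ _ = φ _ * φ _
      rw [← map_mul, ← map_mul, ← map_mul, ← map_mul, K₀.eq]
    · intro i
      refine ⟨?_, hb 1 i, S₁ i⟩
      show φ _ * φ _ = φ _ * φ _
      rw [← map_mul, ← map_mul, ← map_mul, ← map_mul, K₁.eq]
    · intro i
      refine ⟨?_, hb 2 i, ?_⟩
      · show φ _ * φ _ = φ _ * φ _
        rw [← map_mul, ← map_mul, ← map_mul, ← map_mul, K₂.eq]
      · show φ (kch d s i C₂) ^ b 2 i = φ (kch d s i (X' * V')⁻¹) ^ a 2 i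
        rw [S₂ i, map_inv, map_inv, map_mul, map_mul]
    · intro i
      have := key i (C₀ * X' * C₁⁻¹) (C₀ * X' * C₁⁻¹ * (X' * V')⁻¹) A
      show φ _ * φ _ * (φ _)⁻¹ = φ _ * φ _ * (φ _)⁻¹ * φ _
      rw [← map_inv φ, ← map_inv φ, ← map_inv (kch d s (i + 1)), ← map_inv (kch d s i),
        ← map_mul φ, ← map_mul φ, ← map_mul (kch d s (i + 1)), ← map_mul (kch d s (i + 1)), this]
      rw [← map_mul φ, ← map_mul φ, ← map_mul φ, ← map_mul (kch d s i),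
        ← map_mul (kch d s i), ← map_mul (kch d s i)]
    · intro i
      have := key i (C₁ * V' * C₂⁻¹) (X' * (C₁ * V' * C₂⁻¹)) B
      show φ _ * φ _ * (φ _)⁻¹ = φ _ * (φ _ * φ _ * (φ _)⁻¹)
      rw [← map_inv φ, ← map_inv φ, ← map_inv (kch d s (i + 1)), ← map_inv (kch d s i),
        ← map_mul φ, ← map_mul φ, ← map_mul (kch d s (i + 1)), ← map_mul (kch d s (i + 1)), this]
      rw [← map_mul φ, ← map_mul φ, ← map_mul φ, ← map_mul (kch d s i),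
        ← map_mul (kch d s i), ← map_mul (kch d s i)]
  have triv := fun i => Pool.Agent.TH821.Hex.rel_trivial hinv hn hn5 R i
  have tX : ∀ i, φ (kch d s i X') = 1 := fun i => (triv i).1
  have tV : ∀ i, φ (kch d s i V') = 1 := fun i => (triv i).2
  have t₀ : ∀ i, φ (kch d s i C₀) = 1 := by
    intro i
    apply eq_one_of_pow hinv (hb 0 i)
    rw [S₀ i, tX i, one_pow]
  have t₁ : ∀ i, φ (kch d s i C₁) = 1 := by
    intro i
    apply eq_one_of_pow hinv (hb 1 i)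
    rw [S₁ i, tV i, one_pow]
  have t₂ : ∀ i, φ (kch d s i C₂) = 1 := by
    intro i
    apply eq_one_of_pow hinv (hb 2 i)
    rw [S₂ i, tX i, tV i, one_mul, inv_one, one_pow]
  have h1 : NT n s {X, V, c₀, c₁, c₂} ≤ φ.ker.map d.ker.subtype := by
    unfold NT
    rw [Subgroup.closure_le]
    rintro _ ⟨t, ht, i, rfl⟩
    rcases ht with rfl | rfl | rfl | rfl | rfl
    · exact ⟨kch d s i X', tX i, rfl⟩
    · exact ⟨kch d s i V', tV i, rfl⟩
    · exact ⟨kch d s i C₀, t₀ i, rfl⟩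
    · exact ⟨kch d s i C₁, t₁ i, rfl⟩
    · exact ⟨kch d s i C₂, t₂ i, rfl⟩
  have dT : ∀ t ∈ ({X, V, c₀, c₁, c₂} : Set G), d t = 1 := by
    rintro t (rfl | rfl | rfl | rfl | rfl) <;> assumption
  obtain ⟨g', hg', hgg⟩ := h1 (ker_le_NT hn hs hgen d ds dT y.2)
  have : g' = y := Subtype.ext hgg
  rw [← this]; exact hg'

end Pool.Agent.U541.PB
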